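import Pool.Agent.V11289.CS.Limit
import Pool.Agent.V11289.CS.Beta

/-!
# Two minimal closed right ideals for a nilpotent group

`Heis F` is the Heisenberg group over `F = AlgebraicClosure (ZMod 2)`: triples `(a, b, c)` with
`(a, b, c)(a', b', c') = (a + a', b + b', c + c' + a b')`.  It is the union of the finite groups
`K_m = Heis S_m`, where `S_m` is the finite field of the solutions of `x ^ (2 ^ m!) = x`.

A colouring `y_m` of `H = K_m` is extended to a much larger `K = K_m'` by `y_m' = y_m ∘ τ`, where
`τ : K → H` satisfies `τ (h k) = h τ(k)` and `τ(h) = h` for `h ∈ H`.  Each right coset `H k` then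
carries a right translate of `y_m`.  If both colours of `y_m` contain a full coset of the centre
`H ∩ Z`, then for a random `τ` every `n`-tuple `g_1, ..., g_n` in `K` has, for each colour, an
`f ∈ K` such that all `f g_i` have this colour: for most `f` two of the elements `f g_i`, `f g_j` lie in
the same right coset of `H` only if `g_i` and `g_j` differ by an element of `H ∩ Z`, because the
commutators of `f` with a non-central element of `K` take many values.  The limit colouring is a
partition into two completely syndetic sets.
-/

set_option autoImplicit false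

open V11289.CS

namespace Pool.Agent.Results.MP_be5e04_al.HeisenbergTwoIdeals

/-- `G` has an abelian subgroup of finite index. -/
def VirtuallyAbelian (G : Type) [Group G] : Prop :=
  ∃ H : Subgroup G, H.FiniteIndex ∧ ∀ x ∈ H, ∀ y ∈ H, x * y = y * x

/-- A colour class of the limit colouring is completely syndetic. -/
theorem isCS_colour (c : Bool) : IsCS {g : Heis F | chi g = c} := by
  classical
  intro n hn
  obtain ⟨k, rfl⟩ : ∃ k, n = k + 1 := ⟨n - 1, by omega⟩
  have hfin : (GG (k + 1) : Set (Heis F)).Finite :=
    Set.finite_coe_iff.1 (Heis.finite_sub (S (seq (k + 1)).m))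
  refine ⟨hfin.toFinset, ?_⟩
  intro T hT
  let t : Fin (k + 1) → Heis F := fun i =>
    if h : (i : ℕ) < T.card then (T.equivFin.symm ⟨i, h⟩ : Heis F) else 1
  obtain ⟨f, hf, hf2⟩ := chi_hits k t c
  refine ⟨f⁻¹, ?_, ?_⟩
  · rw [Set.Finite.mem_toFinset]
    exact (GG (k + 1)).inv_mem hf
  · intro s hs
    refine ⟨f * s, ?_, by group⟩
    have hi : (T.equivFin ⟨s, hs⟩ : ℕ) < k + 1 := (T.equivFin ⟨s, hs⟩).2.trans_le hT
    have h1 := hf2 ⟨T.equivFin ⟨s, hs⟩, hi⟩
    have h2 : t ⟨T.equivFin ⟨s, hs⟩, hi⟩ = s := by
      simp only [t]
      rw [dif_pos (T.equivFin ⟨s, hs⟩).2]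
      simp
    rw [h2] at h1
    exact h1

/-- The Heisenberg group over an algebraic closure of the field with two elements is countable,
nilpotent, not virtually abelian, and its Stone-Cech compactification has two different minimal
closed right ideals. -/
theorem result : Countable (Heis F) ∧ Group.IsNilpotent (Heis F) ∧ ¬ VirtuallyAbelian (Heis F) ∧
    ∃ R₁ R₂ : Set (Ultrafilter (Heis F)),
      IsMinimalClosedRightIdeal R₁ ∧ IsMinimalClosedRightIdeal R₂ ∧ R₁ ≠ R₂ := by
  refine ⟨inferInstance, Heis.isNilpotent, Heis.not_virtually_abelian, ?_⟩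
  have h1 := isCS_colour true
  have h2 : IsCS {g : Heis F | chi g = true}ᶜ := by
    have h3 := isCS_colour false
    have e : {g : Heis F | chi g = true}ᶜ = {g : Heis F | chi g = false} := by
      ext g
      simp
    rw [e]
    exact h3
  exact two_minimal h1 h2

end Pool.Agent.Results.MP_be5e04_al.HeisenbergTwoIdeals
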